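import Pool.Agent.P8H61.FM.La

/-!
Project FM (helper98), package SEP (helper61), part 2: bounds of the products of Toeplitz matrices
with distant symbols.
-/

set_option autoImplicit false

open MeasureTheory Complex Filter Topology
open scoped ENNReal NNReal ComplexConjugate

namespace Pool.Agent.P8H61.FM

open Pool.Agent.R923.SE Pool.Agent.P8H98.FM

noncomputable section

lemma ae_ne (hK : S_KER) : ∀ᵐ v ∂sg, nn2 v ≠ 0 := hK.2.2.2.2.1

lemma meas_ph (hK : S_KER) (n : ℕ) (j : Fin n) : Measurable fun v => ph n v j := hK.2.2.2.1 n j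

lemma ph_sq_le (hK : S_KER) (n : ℕ) (v : Om) (hv : nn2 v ≠ 0) (j : Fin n) :
    ‖ph n v j‖ ^ 2 ≤ n := by
  rw [← hK.2.2.1 n v hv]
  exact Finset.single_le_sum (f := fun j => ‖ph n v j‖ ^ 2) (fun j _ => by positivity)
      (Finset.mem_univ j)

lemma ph_le (hK : S_KER) (n : ℕ) (v : Om) (hv : nn2 v ≠ 0) (j : Fin n) : ‖ph n v j‖ ≤ n := by
  have h := ph_sq_le hK n v hv j
  have hn : 1 ≤ n := Nat.one_le_of_lt j.2
  have hn' : (1 : ℝ) ≤ n := by exact_mod_cast hn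
  have h0 := norm_nonneg (ph n v j)
  nlinarith

/-- integrability of the entries -/
lemma int_entry (hK : S_KER) {h : Om → ℂ} (hh : Integrable h sg) (n : ℕ) (i j : Fin n) :
    Integrable (fun v => h v * (ph n v i * conj (ph n v j))) sg := by
  refine Integrable.mono' (g := fun v => (n : ℝ) ^ 2 * ‖h v‖) (hh.norm.const_mul _) ?_ ?_
  · refine hh.aestronglyMeasurable.mul ?_
    refine ((meas_ph hK n i).mul ?_).aestronglyMeasurable
    exact Complex.continuous_conj.measurable.comp (meas_ph hK n j)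
  · filter_upwards [ae_ne hK] with v hv
    rw [norm_mul, norm_mul, RCLike.norm_conj]
    have h1 := ph_le hK n v hv i
    have h2 := ph_le hK n v hv j
    have h3 : ‖ph n v i‖ * ‖ph n v j‖ ≤ (n : ℝ) * n :=
      mul_le_mul h1 h2 (norm_nonneg _) (Nat.cast_nonneg n)
    have := mul_le_mul_of_nonneg_left h3 (norm_nonneg (h v))
    nlinarith

lemma TT_sub_one (hK : S_KER) (hO : ∀ n : ℕ, TT n (fun _ => 1) = 1) {h : Om → ℂ}
    (hh : Integrable h sg) (n : ℕ) (i j : Fin n) :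
    (TT n h - 1) i j = ∫ v, (h v - 1) * (ph n v i * conj (ph n v j)) ∂sg := by
  rw [← hO n]
  simp only [TT, Matrix.sub_apply, Matrix.of_apply]
  rw [← integral_sub (int_entry hK hh n i j) (int_entry hK (integrable_const 1) n i j)]
  congr 1
  ext v
  ring

lemma TT_sub_one_mulVec (hK : S_KER) (hO : ∀ n : ℕ, TT n (fun _ => 1) = 1) {h : Om → ℂ}
    (hh : Integrable h sg) (n : ℕ) (x : Fin n → ℂ) (i : Fin n) :
    (TT n h - 1).mulVec x i =
      ∫ w, (h w - 1) * (ph n w i * ∑ j, conj (ph n w j) * x j) ∂sg := by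
  have h1 : (TT n h - 1).mulVec x i =
      ∑ j, (∫ w, (h w - 1) * (ph n w i * conj (ph n w j)) ∂sg) * x j := by
    show ∑ j, (TT n h - 1) i j * x j = _
    exact Finset.sum_congr rfl fun j _ => by rw [TT_sub_one hK hO hh n i j]
  rw [h1]
  simp_rw [← integral_mul_const]
  rw [← integral_finsetSum]
  · congr 1
    ext w
    rw [Finset.mul_sum, Finset.mul_sum]
    exact Finset.sum_congr rfl fun j _ => by ring
  · intro j _
    exact (int_entry hK (hh.sub (integrable_const 1)) n i j).mul_const _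

/-- the kernel is small at a positive distance -/
lemma far_ker (hK : S_KER) {a s : Om → ℂ} (hF : Far a s) : ∃ R : ℝ, 0 < R ∧ R < 1 ∧
    ∀ v w, nn2 v ≠ 0 → nn2 w ≠ 0 → a v ≠ 1 → s w ≠ 1 → ∀ n : ℕ,
      ‖∑ j, conj (ph n w j) * ph n v j‖ ≤ n * R ^ (n - 1) ∧
      ‖∑ j, conj (ph n v j) * ph n w j‖ ≤ n * R ^ (n - 1) := by
  obtain ⟨ρ, hρ, h⟩ := hF
  refine ⟨√(max (1 - ρ) (1 / 4)), Real.sqrt_pos.mpr (by positivity), ?_, ?_⟩
  · rw [Real.sqrt_lt' (by norm_num)]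
    have : max (1 - ρ) (1 / 4) < 1 := max_lt (by linarith) (by norm_num)
    linarith
  · intro v w hv hw hav hsw n
    have hd := h v w hv hw hav hsw
    have hd1 := (hK.2.2.2.2.2.2.1 v w).2.1
    have key : ∀ z u : Om, nn2 z ≠ 0 → nn2 u ≠ 0 → d2 z u = d2 v w →
        ‖∑ j, conj (ph n z j) * ph n u j‖ ≤ n * √(max (1 - ρ) (1 / 4)) ^ (n - 1) := by
      intro z u hz hu he
      have h1 := hK.2.1 n z u hz hu
      refine abs_le_of_sq_le_sq' ?_ (by positivity) |>.2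
      rw [h1, mul_pow, he]
      have h2 : (√(max (1 - ρ) (1 / 4)) ^ (n - 1)) ^ 2 = (max (1 - ρ) (1 / 4)) ^ (n - 1) := by
        rw [← pow_mul, mul_comm, pow_mul, Real.sq_sqrt (by positivity)]
      rw [h2]
      have h3 : (1 - d2 v w) ^ (n - 1) ≤ (max (1 - ρ) (1 / 4)) ^ (n - 1) :=
        pow_le_pow_left₀ (by linarith) (le_trans (by linarith) (le_max_left _ _)) _
      gcongr
    exact ⟨key w v hw hv (hK.2.2.2.2.2.2.1 v w).2.2.symm, key v w hv hw rfl⟩

/-- `N_s φ(v)` is small where `a v ≠ 1` -/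
lemma N_ph (hK : S_KER) (hO : ∀ n : ℕ, TT n (fun _ => 1) = 1) {a s : Om → ℂ}
    (hs : Integrable s sg) {R : ℝ} (hR : 0 < R)
    (hR' : ∀ v w, nn2 v ≠ 0 → nn2 w ≠ 0 → a v ≠ 1 → s w ≠ 1 → ∀ n : ℕ,
      ‖∑ j, conj (ph n w j) * ph n v j‖ ≤ n * R ^ (n - 1))
    (n : ℕ) (v : Om) (hv : nn2 v ≠ 0) (hav : a v ≠ 1) (i : Fin n) :
    ‖(TT n s - 1).mulVec (ph n v) i‖ ≤ n * (n * R ^ (n - 1)) * ∫ w, ‖s w - 1‖ ∂sg := by
  rw [TT_sub_one_mulVec hK hO hs n (ph n v) i, ← integral_const_mul]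
  have hi : Integrable (fun w => (n : ℝ) * (n * R ^ (n - 1)) * ‖s w - 1‖) sg :=
    (hs.sub (integrable_const 1)).norm.const_mul _
  refine norm_integral_le_of_norm_le hi ?_
  filter_upwards [ae_ne hK] with w hw
  by_cases hsw : s w = 1
  · rw [hsw]
    simp
  · rw [norm_mul, norm_mul]
    have h1 := ph_le hK n w hw i
    have h2 := hR' v w hv hw hav hsw n
    have h3 : ‖ph n w i‖ * ‖∑ j, conj (ph n w j) * ph n v j‖ ≤ (n : ℝ) * (n * R ^ (n - 1)) :=
      mul_le_mul h1 h2 (norm_nonneg _) (Nat.cast_nonneg n)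
    have := mul_le_mul_of_nonneg_left h3 (norm_nonneg (s w - 1))
    nlinarith

lemma ns_N_ph (hK : S_KER) (hO : ∀ n : ℕ, TT n (fun _ => 1) = 1) {a s : Om → ℂ}
    (hs : Integrable s sg) {R : ℝ} (hR : 0 < R)
    (hR' : ∀ v w, nn2 v ≠ 0 → nn2 w ≠ 0 → a v ≠ 1 → s w ≠ 1 → ∀ n : ℕ,
      ‖∑ j, conj (ph n w j) * ph n v j‖ ≤ n * R ^ (n - 1))
    (n : ℕ) (v : Om) (hv : nn2 v ≠ 0) (hav : a v ≠ 1) :
    ns ((TT n s - 1).mulVec (ph n v)) ≤
      (∫ w, ‖s w - 1‖ ∂sg) ^ 2 * ((n : ℝ) ^ 5 * (R ^ (n - 1)) ^ 2) := by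
  have h1 : ∀ i : Fin n, ‖(TT n s - 1).mulVec (ph n v) i‖ ^ 2 ≤
      (n * (n * R ^ (n - 1)) * ∫ w, ‖s w - 1‖ ∂sg) ^ 2 := fun i =>
    pow_le_pow_left₀ (norm_nonneg _) (N_ph hK hO hs hR hR' n v hv hav i) 2
  calc ns ((TT n s - 1).mulVec (ph n v)) ≤
        ∑ _i : Fin n, (n * (n * R ^ (n - 1)) * ∫ w, ‖s w - 1‖ ∂sg) ^ 2 :=
      Finset.sum_le_sum fun i _ => h1 i
    _ = (∫ w, ‖s w - 1‖ ∂sg) ^ 2 * ((n : ℝ) ^ 5 * (R ^ (n - 1)) ^ 2) := by
      simp only [Finset.sum_const, Finset.card_univ, Fintype.card_fin, nsmul_eq_mul]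
      ring

/-- the product of the two perturbations is small -/
lemma FN_NN (hK : S_KER) (hO : ∀ n : ℕ, TT n (fun _ => 1) = 1) {a s : Om → ℂ}
    (ha : Integrable a sg) (hs : Integrable s sg) {R : ℝ} (hR : 0 < R)
    (hR' : ∀ v w, nn2 v ≠ 0 → nn2 w ≠ 0 → a v ≠ 1 → s w ≠ 1 → ∀ n : ℕ,
      ‖∑ j, conj (ph n w j) * ph n v j‖ ≤ n * R ^ (n - 1)) (n : ℕ) :
    FN ((TT n s - 1) * (TT n a - 1)) ≤
      ((∫ w, ‖s w - 1‖ ∂sg) * ∫ v, ‖a v - 1‖ ∂sg) ^ 2 * ((n : ℝ) ^ 8 * (R ^ (n - 1)) ^ 2) := by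
  set S := ∫ w, ‖s w - 1‖ ∂sg with hS
  set A := ∫ v, ‖a v - 1‖ ∂sg with hA
  have hS0 : 0 ≤ S := integral_nonneg fun _ => norm_nonneg _
  have h1 : ∀ i j : Fin n, ‖((TT n s - 1) * (TT n a - 1)) i j‖ ≤
      (n * (n * R ^ (n - 1)) * S) * n * A := by
    intro i j
    have e1 : ((TT n s - 1) * (TT n a - 1)) i j =
        ∫ v, (a v - 1) * ((TT n s - 1).mulVec (ph n v) i * conj (ph n v j)) ∂sg := by
      rw [Matrix.mul_apply]
      have : ∀ k : Fin n, (TT n s - 1) i k * (TT n a - 1) k j =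
          ∫ v, (TT n s - 1) i k * ((a v - 1) * (ph n v k * conj (ph n v j))) ∂sg := by
        intro k
        rw [TT_sub_one hK hO ha n k j, ← integral_const_mul]
      rw [Finset.sum_congr rfl fun k _ => this k, ← integral_finsetSum]
      · congr 1
        ext v
        show _ = (a v - 1) * ((∑ k, (TT n s - 1) i k * ph n v k) * conj (ph n v j))
        rw [Finset.sum_mul, Finset.mul_sum]
        exact Finset.sum_congr rfl fun k _ => by ring
      · intro k _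
        exact (int_entry hK (ha.sub (integrable_const 1)) n k j).const_mul _
    rw [e1, hA, ← integral_const_mul]
    have hi : Integrable (fun w => (n * (n * R ^ (n - 1)) * S) * n * ‖a w - 1‖) sg :=
      (ha.sub (integrable_const 1)).norm.const_mul _
    refine norm_integral_le_of_norm_le hi ?_
    filter_upwards [ae_ne hK] with v hv
    by_cases hav : a v = 1
    · rw [hav]
      simp
    · rw [norm_mul, norm_mul, RCLike.norm_conj]
      have h1 := ph_le hK n v hv j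
      have h2 := N_ph hK hO hs hR hR' n v hv hav i
      have h3 : ‖(TT n s - 1).mulVec (ph n v) i‖ * ‖ph n v j‖ ≤
          (n * (n * R ^ (n - 1)) * S) * n :=
        mul_le_mul h2 h1 (norm_nonneg _) (by positivity)
      have := mul_le_mul_of_nonneg_left h3 (norm_nonneg (a v - 1))
      nlinarith
  calc FN ((TT n s - 1) * (TT n a - 1)) ≤
        ∑ _i : Fin n, ∑ _j : Fin n, ((n * (n * R ^ (n - 1)) * S) * n * A) ^ 2 :=
      Finset.sum_le_sum fun i _ => Finset.sum_le_sum fun j _ =>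
        pow_le_pow_left₀ (norm_nonneg _) (h1 i j) 2
    _ = (S * A) ^ 2 * ((n : ℝ) ^ 8 * (R ^ (n - 1)) ^ 2) := by
      simp only [Finset.sum_const, Finset.card_univ, Fintype.card_fin, nsmul_eq_mul]
      ring

end

end Pool.Agent.P8H61.FM
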