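import Pool.Agent.P8H61.FM.Ker

/-!
Project FM (helper98), package SEP (helper61), part 3: the Toeplitz matrix of the product of two
distant symbols.
-/

set_option autoImplicit false

open MeasureTheory Complex Filter Topology
open scoped ENNReal NNReal ComplexConjugate

namespace Pool.Agent.P8H61.FM

open Pool.Agent.R923.SE Pool.Agent.P8H98.FM

noncomputable section

lemma d2_self (v : Om) (hv : nn2 v ≠ 0) : d2 v v = 0 := by
  have h : ‖hp v v‖ = nn2 v := by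
    have h1 : hp v v = ((nn2 v : ℝ) : ℂ) := by
      unfold hp nn2
      rw [Complex.mul_conj, Complex.mul_conj, Complex.normSq_eq_norm_sq, Complex.normSq_eq_norm_sq]
      push_cast
      ring
    rw [h1, Complex.norm_real, Real.norm_eq_abs, abs_of_nonneg]
    unfold nn2
    positivity
  unfold d2
  rw [h]
  field_simp
  ring

lemma far_mul {a s : Om → ℂ} (hF : Far a s) (v : Om) (hv : nn2 v ≠ 0) :
    a v * s v = a v + s v - 1 := by
  obtain ⟨ρ, hρ, h⟩ := hF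
  by_cases h1 : a v = 1
  · rw [h1]
    ring
  · by_cases h2 : s v = 1
    · rw [h2]
      ring
    · have := h v v hv hv h1 h2
      rw [d2_self v hv] at this
      linarith

lemma int_mul_far (hK : S_KER) {a s : Om → ℂ} (ha : Integrable a sg) (hs : Integrable s sg)
    (hF : Far a s) : Integrable (fun v => a v * s v) sg := by
  have h : Integrable (fun v => a v + s v - 1) sg := (ha.add hs).sub (integrable_const 1)
  refine h.congr ?_
  filter_upwards [ae_ne hK] with v hv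
  exact (far_mul hF v hv).symm

lemma TT_far (hK : S_KER) (hO : ∀ n : ℕ, TT n (fun _ => 1) = 1) {a s : Om → ℂ}
    (ha : Integrable a sg) (hs : Integrable s sg) (hF : Far a s) (n : ℕ) :
    TT n (fun v => a v * s v) = TT n a + TT n s - 1 := by
  ext i j
  have h1 : (TT n a + TT n s - 1) i j = TT n a i j + TT n s i j - TT n (fun _ => 1) i j := by
    rw [hO n]
    rfl
  rw [h1]
  simp only [TT, Matrix.of_apply]
  have e := integral_sub (μ := sg) (f := fun v => a v * (ph n v i * conj (ph n v j)) +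
    s v * (ph n v i * conj (ph n v j))) (g := fun v => 1 * (ph n v i * conj (ph n v j)))
    ((int_entry hK ha n i j).add (int_entry hK hs n i j))
    (int_entry hK (integrable_const 1) n i j)
  rw [← integral_add (int_entry hK ha n i j) (int_entry hK hs n i j), ← e]
  refine integral_congr_ae ?_
  filter_upwards [ae_ne hK] with v hv
  rw [far_mul hF v hv]
  ring

lemma PB_nat {a : Om → ℂ} (h : PB a) : ∃ k : ℕ, ∀ᶠ n : ℕ in atTop, (TT n a).det ≠ 0 ∧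
    ∀ x : Fin n → ℂ, ns ((TT n a)⁻¹.mulVec x) ≤ (n : ℝ) ^ k * ns x := by
  obtain ⟨C, _, h⟩ := h
  refine ⟨⌈C⌉₊, ?_⟩
  filter_upwards [h, eventually_ge_atTop 1] with n hn h1
  refine ⟨hn.1, fun x => (hn.2 x).trans ?_⟩
  have h1' : (1 : ℝ) ≤ n := by exact_mod_cast h1
  have h2 : (n : ℝ) ^ C ≤ (n : ℝ) ^ ⌈C⌉₊ := by
    rw [← Real.rpow_natCast]
    exact Real.rpow_le_rpow_of_exponent_le h1' (Nat.le_ceil C)
  exact mul_le_mul_of_nonneg_right h2 (ns_nonneg x)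

lemma xf_eq (n : ℕ) (a : Om → ℂ) (v : Om) :
    xf n a v = a v • (TT n a)⁻¹.mulVec (ph n v) - ph n v := by
  ext i
  show ((TT n a)⁻¹.mulVec fun l => a v * ph n v l) i - ph n v i = _
  have : (fun l => a v * ph n v l) = a v • ph n v := rfl
  rw [this, Matrix.mulVec_smul]
  rfl

lemma TT_xf (n : ℕ) (a : Om → ℂ) (v : Om) (hd : (TT n a).det ≠ 0) :
    (TT n a).mulVec (xf n a v) = a v • ph n v - (TT n a).mulVec (ph n v) := by
  rw [xf_eq, Matrix.mulVec_sub, Matrix.mulVec_smul, Matrix.mulVec_mulVec,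
    Matrix.mul_nonsing_inv _ (isUnit_iff_ne_zero.mpr hd), Matrix.one_mulVec]

/-- the difference of the vector fields -/
lemma xf_diff (hK : S_KER) (hO : ∀ n : ℕ, TT n (fun _ => 1) = 1) {a s : Om → ℂ}
    (ha : Integrable a sg) (hs : Integrable s sg) (hF : Far a s) (n : ℕ)
    (hda : (TT n a).det ≠ 0) (hds : (TT n s).det ≠ 0)
    (hd : (TT n (fun v => a v * s v)).det ≠ 0) (v : Om) (hv : nn2 v ≠ 0) :
    xf n (fun v => a v * s v) v - xf n a v - xf n s v =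
      -(TT n (fun v => a v * s v))⁻¹.mulVec
        ((TT n s - 1).mulVec (xf n a v) + (TT n a - 1).mulVec (xf n s v)) := by
  have h1 := TT_xf n _ v hd
  have h2 := TT_xf n a v hda
  have h3 := TT_xf n s v hds
  have hT := TT_far hK hO ha hs hF n
  have key : (TT n (fun v => a v * s v)).mulVec
      (xf n (fun v => a v * s v) v - xf n a v - xf n s v) =
      -((TT n s - 1).mulVec (xf n a v) + (TT n a - 1).mulVec (xf n s v)) := by
    rw [Matrix.mulVec_sub, Matrix.mulVec_sub, h1]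
    rw [hT]
    have e1 : (TT n a + TT n s - 1).mulVec (xf n a v) =
        (TT n a).mulVec (xf n a v) + (TT n s - 1).mulVec (xf n a v) := by
      rw [← Matrix.add_mulVec]
      congr 1
      abel
    have e2 : (TT n a + TT n s - 1).mulVec (xf n s v) =
        (TT n s).mulVec (xf n s v) + (TT n a - 1).mulVec (xf n s v) := by
      rw [← Matrix.add_mulVec]
      congr 1
      abel
    have e3 : (TT n a + TT n s - 1).mulVec (ph n v) =
        (TT n a).mulVec (ph n v) + (TT n s).mulVec (ph n v) - ph n v := by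
      rw [Matrix.sub_mulVec, Matrix.add_mulVec, Matrix.one_mulVec]
    rw [e1, e2, e3, h2, h3, far_mul hF v hv]
    ext i
    simp only [Pi.sub_apply, Pi.add_apply, Pi.smul_apply, Pi.neg_apply, smul_eq_mul]
    ring
  have h4 : xf n (fun v => a v * s v) v - xf n a v - xf n s v =
      (TT n (fun v => a v * s v))⁻¹.mulVec ((TT n (fun v => a v * s v)).mulVec
        (xf n (fun v => a v * s v) v - xf n a v - xf n s v)) := by
    rw [Matrix.mulVec_mulVec, Matrix.nonsing_inv_mul _ (isUnit_iff_ne_zero.mpr hd),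
      Matrix.one_mulVec]
  rw [h4, key, Matrix.mulVec_neg]

/-- `N_s x_a` -/
lemma N_xf (n : ℕ) (a s : Om → ℂ) (hda : (TT n a).det ≠ 0) (v : Om) :
    (TT n s - 1).mulVec (xf n a v) = (a v - 1) • (TT n s - 1).mulVec (ph n v) -
      a v • ((TT n s - 1) * (TT n a - 1)).mulVec ((TT n a)⁻¹.mulVec (ph n v)) := by
  have h1 : (TT n a)⁻¹.mulVec (ph n v) = ph n v - (TT n a - 1).mulVec ((TT n a)⁻¹.mulVec (ph n v)) := by
    rw [Matrix.mulVec_mulVec, sub_mul, one_mul, Matrix.sub_mulVec,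
      Matrix.mul_nonsing_inv _ (isUnit_iff_ne_zero.mpr hda), Matrix.one_mulVec]
    abel
  have h2 : (TT n s - 1).mulVec ((TT n a)⁻¹.mulVec (ph n v)) = (TT n s - 1).mulVec (ph n v) -
      ((TT n s - 1) * (TT n a - 1)).mulVec ((TT n a)⁻¹.mulVec (ph n v)) := by
    conv_lhs => rw [h1]
    rw [Matrix.mulVec_sub, ← Matrix.mulVec_mulVec (M := TT n s - 1) (N := TT n a - 1)]
  rw [xf_eq, Matrix.mulVec_sub, Matrix.mulVec_smul, h2]
  ext i
  simp only [Pi.sub_apply, Pi.smul_apply, smul_eq_mul]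
  ring

/-- bound of `N_s x_a` -/
lemma ns_N_xf (hK : S_KER) (hO : ∀ n : ℕ, TT n (fun _ => 1) = 1) {a s : Om → ℂ}
    (ha : Integrable a sg) (hs : Integrable s sg) {R : ℝ} (hR : 0 < R)
    (hR' : ∀ v w, nn2 v ≠ 0 → nn2 w ≠ 0 → a v ≠ 1 → s w ≠ 1 → ∀ n : ℕ,
      ‖∑ j, conj (ph n w j) * ph n v j‖ ≤ n * R ^ (n - 1)) (n k : ℕ)
    (hda : (TT n a).det ≠ 0)
    (hk : ∀ x : Fin n → ℂ, ns ((TT n a)⁻¹.mulVec x) ≤ (n : ℝ) ^ k * ns x)
    (v : Om) (hv : nn2 v ≠ 0) :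
    ns ((TT n s - 1).mulVec (xf n a v)) ≤
      (4 * ((∫ w, ‖s w - 1‖ ∂sg) ^ 2 * ((n : ℝ) ^ 5 * (R ^ (n - 1)) ^ 2)) +
      2 * (((∫ w, ‖s w - 1‖ ∂sg) * ∫ v, ‖a v - 1‖ ∂sg) ^ 2 *
        ((n : ℝ) ^ 8 * (R ^ (n - 1)) ^ 2)) * n ^ (k + 1)) * (1 + ‖a v‖ ^ 2) := by
  set g1 := (∫ w, ‖s w - 1‖ ∂sg) ^ 2 * ((n : ℝ) ^ 5 * (R ^ (n - 1)) ^ 2) with hg1
  set g2 := ((∫ w, ‖s w - 1‖ ∂sg) * ∫ v, ‖a v - 1‖ ∂sg) ^ 2 *
        ((n : ℝ) ^ 8 * (R ^ (n - 1)) ^ 2) with hg2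
  have hg1' : 0 ≤ g1 := by positivity
  have hg2' : 0 ≤ g2 := by positivity
  rw [N_xf n a s hda v]
  refine (ns_sub _ _).trans ?_
  rw [ns_smul, ns_smul]
  have h1 : ‖a v - 1‖ ^ 2 * ns ((TT n s - 1).mulVec (ph n v)) ≤ ‖a v - 1‖ ^ 2 * g1 := by
    by_cases hav : a v = 1
    · rw [hav]
      simp
    · exact mul_le_mul_of_nonneg_left (ns_N_ph hK hO hs hR hR' n v hv hav) (by positivity)
  have h2 : ‖a v - 1‖ ^ 2 ≤ 2 + 2 * ‖a v‖ ^ 2 := by
    have := norm_sub_le (a v) 1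
    rw [norm_one] at this
    nlinarith [norm_nonneg (a v - 1), norm_nonneg (a v), sq_nonneg (‖a v‖ - 1)]
  have h3 : ns (((TT n s - 1) * (TT n a - 1)).mulVec ((TT n a)⁻¹.mulVec (ph n v))) ≤
      g2 * n ^ (k + 1) := by
    refine (ns_mulVec _ _).trans ?_
    have h4 := FN_NN hK hO ha hs hR hR' n
    have h5 : ns ((TT n a)⁻¹.mulVec (ph n v)) ≤ (n : ℝ) ^ (k + 1) := by
      refine (hk _).trans (le_of_eq ?_)
      rw [hK.2.2.1 n v hv]
      ring
    exact mul_le_mul h4 h5 (ns_nonneg _) hg2'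
  have h6 : ‖a v - 1‖ ^ 2 * g1 ≤ (2 + 2 * ‖a v‖ ^ 2) * g1 :=
    mul_le_mul_of_nonneg_right h2 hg1'
  have h7 : ‖a v‖ ^ 2 * ns (((TT n s - 1) * (TT n a - 1)).mulVec ((TT n a)⁻¹.mulVec (ph n v))) ≤
      (1 + ‖a v‖ ^ 2) * (g2 * n ^ (k + 1)) :=
    mul_le_mul (by linarith) h3 (ns_nonneg _) (by positivity)
  nlinarith

/-- the main estimates -/
theorem key (hK : S_KER) (hO : ∀ n : ℕ, TT n (fun _ => 1) = 1) (hLA : S_LA) {a s : Om → ℂ}
    (ha : Integrable a sg) (hs : Integrable s sg) (hPa : PB a) (hPs : PB s) (hF : Far a s) :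
    PB (fun v => a v * s v) ∧
    Tendsto (fun n => DD n (fun v => a v * s v) / (DD n a * DD n s)) atTop (𝓝 1) ∧
    ∃ w : ℕ → ℝ, Sm w ∧ (∀ n, 0 ≤ w n) ∧ ∀ᶠ n : ℕ in atTop, (TT n a).det ≠ 0 ∧
      (TT n s).det ≠ 0 ∧ (TT n (fun v => a v * s v)).det ≠ 0 ∧ ∀ v, nn2 v ≠ 0 →
      ns (xf n (fun v => a v * s v) v - xf n a v - xf n s v) ≤
        w n * (1 + ‖a v‖ ^ 2 + ‖s v‖ ^ 2) := by
  obtain ⟨R, hR0, hR1, hR⟩ := far_ker hK hF
  obtain ⟨ka, hka⟩ := PB_nat hPa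
  obtain ⟨ks, hks⟩ := PB_nat hPs
  have hRa : ∀ v w, nn2 v ≠ 0 → nn2 w ≠ 0 → a v ≠ 1 → s w ≠ 1 → ∀ n : ℕ,
      ‖∑ j, conj (ph n w j) * ph n v j‖ ≤ n * R ^ (n - 1) :=
    fun v w h1 h2 h3 h4 n => (hR v w h1 h2 h3 h4 n).1
  have hRs : ∀ v w, nn2 v ≠ 0 → nn2 w ≠ 0 → s v ≠ 1 → a w ≠ 1 → ∀ n : ℕ,
      ‖∑ j, conj (ph n w j) * ph n v j‖ ≤ n * R ^ (n - 1) :=
    fun v w h1 h2 h3 h4 n => (hR w v h2 h1 h4 h3 n).2
  set S := ∫ w, ‖s w - 1‖ ∂sg with hS
  set A := ∫ w, ‖a w - 1‖ ∂sg with hA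
  set B : ∀ n : ℕ, Matrix (Fin n) (Fin n) ℂ := fun n =>
    (TT n a)⁻¹ * ((TT n a - 1) * (TT n s - 1)) * (TT n s)⁻¹ with hB
  -- the perturbation is small
  have hBs : ∀ᶠ n : ℕ in atTop, FN (B n) ≤
      (A * S) ^ 2 * ((n : ℝ) ^ (ka + ks + 10) * (R ^ (n - 1)) ^ 2) := by
    filter_upwards [hka, hks] with n h1 h2
    have e1 := FN_NN hK hO hs ha hR0 hRs n
    have e2 := FN_of_bound _ _ h1.2
    have e3 := FN_of_bound _ _ h2.2
    calc FN (B n) ≤ FN ((TT n a)⁻¹ * ((TT n a - 1) * (TT n s - 1))) * FN (TT n s)⁻¹ := FN_mul _ _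
      _ ≤ (FN (TT n a)⁻¹ * FN ((TT n a - 1) * (TT n s - 1))) * FN (TT n s)⁻¹ :=
        mul_le_mul_of_nonneg_right (FN_mul _ _) (FN_nonneg _)
      _ ≤ ((n * (n : ℝ) ^ ka) * ((A * S) ^ 2 * ((n : ℝ) ^ 8 * (R ^ (n - 1)) ^ 2))) *
          (n * (n : ℝ) ^ ks) := by
        refine mul_le_mul (mul_le_mul e2 e1 (FN_nonneg _) (by positivity)) e3 (FN_nonneg _) ?_
        positivity
      _ = (A * S) ^ 2 * ((n : ℝ) ^ (ka + ks + 10) * (R ^ (n - 1)) ^ 2) := by ring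
  have hsm := sm_pow hR0 hR1
  have hBF : Sm fun n => FN (B n) :=
    (hsm.poly ((A * S) ^ 2) (ka + ks + 10)).mono (Eventually.of_forall fun n => FN_nonneg _) hBs
  have hdet : Tendsto (fun n => (1 - B n).det) atTop (𝓝 1) := det_tendsto hLA B (by
    simpa using hBF 1)
  have hdet0 : ∀ᶠ n in atTop, (1 - B n).det ≠ 0 :=
    hdet.eventually (isOpen_ne.mem_nhds one_ne_zero)
  have hB4 : ∀ᶠ n in atTop, FN (B n) ≤ 1 / 4 :=
    hBF.tendsto.eventually (ge_mem_nhds (by norm_num : (0 : ℝ) < 1 / 4))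
  have hfac : ∀ n : ℕ, (TT n a).det ≠ 0 → (TT n s).det ≠ 0 →
      TT n (fun v => a v * s v) = TT n a * (1 - B n) * TT n s := by
    intro n h1 h2
    have u1 : TT n a * (TT n a)⁻¹ = 1 := Matrix.mul_nonsing_inv _ (isUnit_iff_ne_zero.mpr h1)
    have u2 : (TT n s)⁻¹ * TT n s = 1 := Matrix.nonsing_inv_mul _ (isUnit_iff_ne_zero.mpr h2)
    rw [TT_far hK hO ha hs hF n]
    have e1 : TT n a * (1 - B n) * TT n s = TT n a * TT n s -
        (TT n a * (TT n a)⁻¹) * ((TT n a - 1) * (TT n s - 1)) * ((TT n s)⁻¹ * TT n s) := by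
      rw [hB]
      noncomm_ring
    rw [e1, u1, u2]
    noncomm_ring
  have hinv : ∀ᶠ n : ℕ in atTop, (TT n (fun v => a v * s v)).det ≠ 0 ∧ ∀ x : Fin n → ℂ,
      ns ((TT n (fun v => a v * s v))⁻¹.mulVec x) ≤ (4 * (n : ℝ) ^ (ka + ks)) * ns x := by
    filter_upwards [hka, hks, hdet0, hB4] with n h1 h2 h3 h4
    rw [hfac n h1.1 h2.1]
    refine ⟨?_, fun x => ?_⟩
    · rw [Matrix.det_mul, Matrix.det_mul]
      exact mul_ne_zero (mul_ne_zero h1.1 h3) h2.1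
    · rw [Matrix.mul_inv_rev, Matrix.mul_inv_rev, ← Matrix.mulVec_mulVec, ← Matrix.mulVec_mulVec]
      calc _ ≤ (n : ℝ) ^ ks * ns ((1 - B n)⁻¹.mulVec ((TT n a)⁻¹.mulVec x)) := h2.2 _
        _ ≤ (n : ℝ) ^ ks * (4 * ns ((TT n a)⁻¹.mulVec x)) :=
          mul_le_mul_of_nonneg_left (ns_inv_one_sub _ h4 h3 _) (by positivity)
        _ ≤ (n : ℝ) ^ ks * (4 * ((n : ℝ) ^ ka * ns x)) := by
          have := h1.2 x
          gcongr
        _ = (4 * (n : ℝ) ^ (ka + ks)) * ns x := by ring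
  refine ⟨?_, ?_, ?_⟩
  · refine ⟨(ka + ks + 1 : ℕ), by positivity, ?_⟩
    filter_upwards [hinv, eventually_ge_atTop 4] with n h1 h2
    refine ⟨h1.1, fun x => (h1.2 x).trans ?_⟩
    rw [Real.rpow_natCast]
    have h3 : (4 : ℝ) ≤ n := by exact_mod_cast h2
    refine mul_le_mul_of_nonneg_right ?_ (ns_nonneg x)
    rw [pow_succ, mul_comm]
    gcongr
  · refine hdet.congr' ?_
    filter_upwards [hka, hks] with n h1 h2
    unfold DD
    rw [hfac n h1.1 h2.1, Matrix.det_mul, Matrix.det_mul]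
    field_simp [h1.1, h2.1]
  · set G : ℕ → ℕ → ℝ → ℝ → ℝ := fun n k S A =>
      (4 * (S ^ 2 * ((n : ℝ) ^ 5 * (R ^ (n - 1)) ^ 2)) +
      2 * ((S * A) ^ 2 * ((n : ℝ) ^ 8 * (R ^ (n - 1)) ^ 2)) * n ^ (k + 1)) with hG
    have hG0 : ∀ n k S A, 0 ≤ G n k S A := fun n k S A => by
      rw [hG]
      positivity
    have hGs : ∀ k S A, Sm fun n => G n k S A := by
      intro k S A
      have h1 := (hsm.poly (4 * S ^ 2) 5).add (hsm.poly (2 * (S * A) ^ 2) (8 + (k + 1)))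
      refine h1.mono (Eventually.of_forall fun n => hG0 n k S A)
        (Eventually.of_forall fun n => le_of_eq ?_)
      rw [hG]
      ring
    refine ⟨fun n => (8 * (n : ℝ) ^ (ka + ks)) * (G n ka S A + G n ks A S), ?_, ?_, ?_⟩
    · have h1 := ((hGs ka S A).add (hGs ks A S)).poly 8 (ka + ks)
      refine h1.mono (Eventually.of_forall fun n => ?_) (Eventually.of_forall fun n => le_of_eq ?_)
      · have := hG0 n ka S A
        have := hG0 n ks A S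
        positivity
      · ring
    · intro n
      have := hG0 n ka S A
      have := hG0 n ks A S
      positivity
    · filter_upwards [hka, hks, hinv] with n h1 h2 h3
      refine ⟨h1.1, h2.1, h3.1, fun v hv => ?_⟩
      rw [xf_diff hK hO ha hs hF n h1.1 h2.1 h3.1 v hv, ns_neg]
      refine (h3.2 _).trans ?_
      have e0 := ns_add ((TT n s - 1).mulVec (xf n a v)) ((TT n a - 1).mulVec (xf n s v))
      have e1 := ns_N_xf hK hO ha hs hR0 hRa n ka h1.1 h1.2 v hv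
      have e2 := ns_N_xf hK hO hs ha hR0 hRs n ks h2.1 h2.2 v hv
      have e1' : ns ((TT n s - 1).mulVec (xf n a v)) ≤ G n ka S A * (1 + ‖a v‖ ^ 2) := e1
      have e2' : ns ((TT n a - 1).mulVec (xf n s v)) ≤ G n ks A S * (1 + ‖s v‖ ^ 2) := e2
      have e3 : G n ka S A * (1 + ‖a v‖ ^ 2) ≤ G n ka S A * (1 + ‖a v‖ ^ 2 + ‖s v‖ ^ 2) :=
        mul_le_mul_of_nonneg_left (by nlinarith [sq_nonneg ‖s v‖]) (hG0 _ _ _ _)
      have e4 : G n ks A S * (1 + ‖s v‖ ^ 2) ≤ G n ks A S * (1 + ‖a v‖ ^ 2 + ‖s v‖ ^ 2) :=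
        mul_le_mul_of_nonneg_left (by nlinarith [sq_nonneg ‖a v‖]) (hG0 _ _ _ _)
      have e5 : (0 : ℝ) ≤ (n : ℝ) ^ (ka + ks) := by positivity
      calc 4 * (n : ℝ) ^ (ka + ks) * ns ((TT n s - 1).mulVec (xf n a v) +
            (TT n a - 1).mulVec (xf n s v)) ≤ 4 * (n : ℝ) ^ (ka + ks) *
            (2 * (G n ka S A * (1 + ‖a v‖ ^ 2 + ‖s v‖ ^ 2)) +
              2 * (G n ks A S * (1 + ‖a v‖ ^ 2 + ‖s v‖ ^ 2))) := by
            refine mul_le_mul_of_nonneg_left ?_ (by positivity)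
            linarith
        _ = 8 * (n : ℝ) ^ (ka + ks) * (G n ka S A + G n ks A S) *
            (1 + ‖a v‖ ^ 2 + ‖s v‖ ^ 2) := by ring

end

end Pool.Agent.P8H61.FM
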