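import Pool.Agent.P8H98.FM.Stm2

/-!
Project FM (helper98), package SEP (helper61), part 1: linear algebra with the squared euclidean norm
and the squared Frobenius norm.
-/

set_option autoImplicit false

open MeasureTheory Complex Filter Topology
open scoped ENNReal NNReal ComplexConjugate

namespace Pool.Agent.P8H61.FM

open Pool.Agent.R923.SE Pool.Agent.P8H98.FM

noncomputable section

/-- squared Frobenius norm -/
def FN {n : ℕ} (A : Matrix (Fin n) (Fin n) ℂ) : ℝ := ∑ i, ∑ j, ‖A i j‖ ^ 2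

variable {n : ℕ}

lemma ns_nonneg (x : Fin n → ℂ) : 0 ≤ ns x := Finset.sum_nonneg fun _ _ => by positivity

lemma FN_nonneg (A : Matrix (Fin n) (Fin n) ℂ) : 0 ≤ FN A :=
  Finset.sum_nonneg fun _ _ => Finset.sum_nonneg fun _ _ => by positivity

lemma ns_dot (x y : Fin n → ℂ) : ‖∑ i, x i * y i‖ ^ 2 ≤ ns x * ns y := by
  calc ‖∑ i, x i * y i‖ ^ 2 ≤ (∑ i, ‖x i‖ * ‖y i‖) ^ 2 := by
        gcongr
        exact (norm_sum_le _ _).trans (le_of_eq (by simp))
    _ ≤ (∑ i, ‖x i‖ ^ 2) * (∑ i, ‖y i‖ ^ 2) := Finset.sum_mul_sq_le_sq_mul_sq _ _ _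

lemma ns_mulVec (A : Matrix (Fin n) (Fin n) ℂ) (x : Fin n → ℂ) :
    ns (A.mulVec x) ≤ FN A * ns x := by
  unfold FN
  rw [Finset.sum_mul]
  exact Finset.sum_le_sum fun i _ => ns_dot (A i) x

lemma FN_cols (A : Matrix (Fin n) (Fin n) ℂ) : FN A = ∑ j, ns (fun i => A i j) := by
  unfold FN ns
  exact Finset.sum_comm

lemma FN_mul (A B : Matrix (Fin n) (Fin n) ℂ) : FN (A * B) ≤ FN A * FN B := by
  rw [FN_cols (A * B), FN_cols B, Finset.mul_sum]
  exact Finset.sum_le_sum fun j _ => ns_mulVec A fun k => B k j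

lemma FN_of_bound (A : Matrix (Fin n) (Fin n) ℂ) (c : ℝ)
    (h : ∀ x : Fin n → ℂ, ns (A.mulVec x) ≤ c * ns x) : FN A ≤ n * c := by
  rw [FN_cols]
  have h1 : ∀ j : Fin n, ns (fun i => A i j) ≤ c := by
    intro j
    have := h (Pi.single j 1)
    have h2 : A.mulVec (Pi.single j 1) = fun i => A i j := by
      ext i
      simp
    have h3 : ns (Pi.single j (1 : ℂ) : Fin n → ℂ) = 1 := by
      unfold ns
      rw [Finset.sum_eq_single j]
      · simp
      · intro b _ hb
        simp [Pi.single_apply, hb]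
      · simp
    rw [h2, h3, mul_one] at this
    exact this
  calc ∑ j, ns (fun i => A i j) ≤ ∑ _j : Fin n, c := Finset.sum_le_sum fun j _ => h1 j
    _ = n * c := by simp

lemma ns_add (x y : Fin n → ℂ) : ns (x + y) ≤ 2 * ns x + 2 * ns y := by
  unfold ns
  rw [Finset.mul_sum, Finset.mul_sum, ← Finset.sum_add_distrib]
  refine Finset.sum_le_sum fun i _ => ?_
  have h := norm_add_le (x i) (y i)
  have h0 := norm_nonneg (x i + y i)
  have : ‖(x + y) i‖ = ‖x i + y i‖ := rfl
  rw [this]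
  nlinarith [sq_nonneg (‖x i‖ - ‖y i‖), norm_nonneg (x i), norm_nonneg (y i)]

lemma ns_smul (c : ℂ) (x : Fin n → ℂ) : ns (c • x) = ‖c‖ ^ 2 * ns x := by
  unfold ns
  rw [Finset.mul_sum]
  refine Finset.sum_congr rfl fun i _ => ?_
  simp [mul_pow]

lemma ns_neg (x : Fin n → ℂ) : ns (-x) = ns x := by
  unfold ns
  simp

lemma ns_sub (x y : Fin n → ℂ) : ns (x - y) ≤ 2 * ns x + 2 * ns y := by
  rw [sub_eq_add_neg, ← ns_neg y]
  exact ns_add _ _

/-- perturbation of the identity -/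
lemma ns_inv_one_sub (A : Matrix (Fin n) (Fin n) ℂ) (hA : FN A ≤ 1 / 4)
    (hd : (1 - A).det ≠ 0) (y : Fin n → ℂ) : ns ((1 - A)⁻¹.mulVec y) ≤ 4 * ns y := by
  set x := (1 - A)⁻¹.mulVec y with hx
  have hu : IsUnit (1 - A).det := isUnit_iff_ne_zero.mpr hd
  have h1 : (1 - A).mulVec x = y := by
    rw [hx, Matrix.mulVec_mulVec, Matrix.mul_nonsing_inv _ hu, Matrix.one_mulVec]
  have h2 : x = y + A.mulVec x := by
    rw [Matrix.sub_mulVec, Matrix.one_mulVec] at h1
    rw [← h1]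
    abel
  have h3 : ns x ≤ 2 * ns y + 2 * ns (A.mulVec x) := by
    conv_lhs => rw [h2]
    exact ns_add _ _
  have h4 := ns_mulVec A x
  have h5 : FN A * ns x ≤ 1 / 4 * ns x := mul_le_mul_of_nonneg_right hA (ns_nonneg x)
  have h6 := ns_nonneg x
  linarith

lemma trace_sq_le (A : Matrix (Fin n) (Fin n) ℂ) : ‖A.trace‖ ^ 2 ≤ n * FN A := by
  have h1 : ‖A.trace‖ ^ 2 ≤ ns (fun _ : Fin n => (1 : ℂ)) * ns (fun i => A i i) := by
    have := ns_dot (fun _ : Fin n => (1 : ℂ)) (fun i => A i i)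
    simpa [Matrix.trace] using this
  have h2 : ns (fun _ : Fin n => (1 : ℂ)) = n := by
    unfold ns
    simp
  have h3 : ns (fun i => A i i) ≤ FN A := by
    unfold ns FN
    refine Finset.sum_le_sum fun i _ => ?_
    exact Finset.single_le_sum (f := fun j => ‖A i j‖ ^ 2) (fun j _ => by positivity)
      (Finset.mem_univ i)
  rw [h2] at h1
  exact h1.trans (mul_le_mul_of_nonneg_left h3 (Nat.cast_nonneg n))

/-- determinants of small perturbations of the identity -/
lemma det_tendsto (hLA : S_LA) (A : ∀ n : ℕ, Matrix (Fin n) (Fin n) ℂ)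
    (h : Tendsto (fun n : ℕ => (n : ℝ) * FN (A n)) atTop (𝓝 0)) :
    Tendsto (fun n => (1 - A n).det) atTop (𝓝 1) := by
  have hF : Tendsto (fun n : ℕ => FN (A n)) atTop (𝓝 0) := by
    refine squeeze_zero' (Eventually.of_forall fun n => FN_nonneg _) ?_ h
    filter_upwards [eventually_ge_atTop 1] with n hn
    have : (1 : ℝ) ≤ n := by exact_mod_cast hn
    nlinarith [FN_nonneg (A n)]
  have hs : Tendsto (fun n : ℕ => √((n : ℝ) * FN (A n)) + FN (A n)) atTop (𝓝 0) := by
    have := (Real.continuous_sqrt.tendsto 0).comp h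
    rw [Real.sqrt_zero] at this
    simpa using this.add hF
  have hex : ∀ n : ℕ, ∃ e : ℂ, FN (A n) ≤ 1 / 4 →
      ‖e‖ ≤ √((n : ℝ) * FN (A n)) + FN (A n) ∧ (1 - A n).det = cexp e := by
    intro n
    by_cases hq : FN (A n) ≤ 1 / 4
    · obtain ⟨e, he, hd⟩ := hLA n (-A n) (by
        have : FN (-A n) = FN (A n) := by unfold FN; simp
        unfold FN at this
        rw [this]
        exact hq)
      refine ⟨(-A n).trace + e, fun _ => ⟨?_, ?_⟩⟩
      · refine (norm_add_le _ _).trans (add_le_add ?_ ?_)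
        · have h1 := trace_sq_le (A n)
          rw [Matrix.trace_neg, norm_neg]
          exact Real.le_sqrt_of_sq_le h1
        · have : FN (-A n) = FN (A n) := by unfold FN; simp
          unfold FN at this
          rw [this] at he
          exact he
      · rw [sub_eq_add_neg]
        exact hd
    · exact ⟨0, fun h => absurd h hq⟩
  choose e he using hex
  have hsm : ∀ᶠ n : ℕ in atTop, FN (A n) ≤ 1 / 4 :=
    hF.eventually (ge_mem_nhds (by norm_num : (0 : ℝ) < 1 / 4))
  have het : Tendsto e atTop (𝓝 0) := by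
    rw [tendsto_zero_iff_norm_tendsto_zero]
    refine squeeze_zero' (Eventually.of_forall fun n => norm_nonneg _) ?_ hs
    filter_upwards [hsm] with n hn
    exact (he n hn).1
  have h1 : Tendsto (fun n => cexp (e n)) atTop (𝓝 1) := by
    have := (Complex.continuous_exp.tendsto 0).comp het
    rw [Complex.exp_zero] at this
    exact this
  refine h1.congr' ?_
  filter_upwards [hsm] with n hn
  exact (he n hn).2.symm

/-- rapid decay -/
def Sm (u : ℕ → ℝ) : Prop := ∀ k : ℕ, Tendsto (fun n : ℕ => (n : ℝ) ^ k * u n) atTop (𝓝 0)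

lemma Sm.tendsto {u : ℕ → ℝ} (h : Sm u) : Tendsto u atTop (𝓝 0) := by simpa using h 0

lemma Sm.poly {u : ℕ → ℝ} (h : Sm u) (c : ℝ) (m : ℕ) : Sm fun n => c * ((n : ℝ) ^ m * u n) := by
  intro k
  have := (h (k + m)).const_mul c
  rw [mul_zero] at this
  refine this.congr fun n => ?_
  ring

lemma Sm.add {u v : ℕ → ℝ} (h : Sm u) (h' : Sm v) : Sm fun n => u n + v n := by
  intro k
  have := (h k).add (h' k)
  rw [add_zero] at this
  refine this.congr fun n => ?_
  ring

lemma Sm.mono {u v : ℕ → ℝ} (h : Sm u) (h0 : ∀ᶠ n in atTop, 0 ≤ v n)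
    (hv : ∀ᶠ n in atTop, v n ≤ u n) : Sm v := by
  intro k
  refine squeeze_zero' ?_ ?_ (h k)
  · filter_upwards [h0] with n hn
    positivity
  · filter_upwards [hv] with n hn
    gcongr

lemma sm_pow {R : ℝ} (h0 : 0 < R) (h1 : R < 1) : Sm fun n => (R ^ (n - 1)) ^ 2 := by
  intro k
  have h := (tendsto_pow_const_mul_const_pow_of_lt_one k h0.le h1).const_mul (R⁻¹)
  rw [mul_zero] at h
  refine squeeze_zero' (Eventually.of_forall fun n => by positivity) ?_ h
  filter_upwards [eventually_ge_atTop 1] with n hn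
  have h2 : R ^ n = R * R ^ (n - 1) := by
    rw [← pow_succ', Nat.sub_add_cancel hn]
  have h3 : R⁻¹ * ((n : ℝ) ^ k * R ^ n) = (n : ℝ) ^ k * R ^ (n - 1) := by
    rw [h2]
    field_simp
  rw [h3]
  have h4 : (R ^ (n - 1)) ^ 2 ≤ R ^ (n - 1) := by
    have h5 : R ^ (n - 1) ≤ 1 := pow_le_one₀ h0.le h1.le
    have h6 : 0 ≤ R ^ (n - 1) := by positivity
    nlinarith
  gcongr

end

end Pool.Agent.P8H61.FM
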