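import Pool.Agent.P8H61.FM.Key

/-!
Project FM (helper98), package SEP (helper61): separation of distant singularities.
-/

set_option autoImplicit false

open MeasureTheory Complex Filter Topology
open scoped ENNReal NNReal ComplexConjugate

namespace Pool.Agent.P8H61.FM

open Pool.Agent.R923.SE Pool.Agent.P8H98.FM

noncomputable section

lemma meas_xf (hK : S_KER) {a : Om → ℂ} (ha : Measurable a) (n : ℕ) (i : Fin n) :
    Measurable fun v => xf n a v i := by
  have h : (fun v => xf n a v i) = fun v => (∑ l, (TT n a)⁻¹ i l * (a v * ph n v l)) - ph n v i :=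
    rfl
  rw [h]
  refine Measurable.sub ?_ (meas_ph hK n i)
  exact Finset.measurable_sum _ fun l _ => (ha.mul (meas_ph hK n l)).const_mul _

lemma meas_yf (hK : S_KER) {b : Om → ℂ} (hb : Measurable b) (n : ℕ) (i : Fin n) :
    Measurable fun v => yf n b v i := by
  unfold yf
  have hc : ∀ l : Fin n, Measurable fun v => conj (ph n v l) := fun l =>
    Complex.continuous_conj.measurable.comp (meas_ph hK n l)
  refine Measurable.sub ?_ (hc i)
  exact Finset.measurable_sum _ fun l _ => (hb.mul (hc l)).mul_const _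

lemma ns_xf_le (hK : S_KER) (n : ℕ) (a : Om → ℂ) (v : Om) (hv : nn2 v ≠ 0) :
    ns (xf n a v) ≤ 2 * (FN (TT n a)⁻¹ * n) * ‖a v‖ ^ 2 + 2 * n := by
  rw [xf_eq]
  refine (ns_sub _ _).trans ?_
  rw [ns_smul, hK.2.2.1 n v hv]
  have h := ns_mulVec (TT n a)⁻¹ (ph n v)
  rw [hK.2.2.1 n v hv] at h
  have := mul_le_mul_of_nonneg_left h (sq_nonneg ‖a v‖)
  nlinarith

lemma int_w (ω : Om → ℝ) (h1 : Measurable ω) (h2 : ∀ v, 0 ≤ ω v ∧ ω v ≤ 1) :
    Integrable (fun v => ω v ^ 2) sg := by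
  refine Integrable.mono' (g := fun _ => (1 : ℝ)) (integrable_const 1)
    (h1.pow_const 2).aestronglyMeasurable (Eventually.of_forall fun v => ?_)
  rw [Real.norm_eq_abs, abs_of_nonneg (sq_nonneg _)]
  have := h2 v
  nlinarith

lemma int_xf (hK : S_KER) {a : Om → ℂ} {ω : Om → ℝ} (ha : Measurable a) (h1 : Measurable ω)
    (h2 : ∀ v, 0 ≤ ω v ∧ ω v ≤ 1) (h3 : Integrable (fun v => ω v ^ 2 * ‖a v‖ ^ 2) sg)
    (n : ℕ) (e : Fin n → ℂ) :
    Integrable (fun v => ω v ^ 2 * ‖∑ i, e i * xf n a v i‖ ^ 2) sg := by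
  have hi : Integrable (fun v => ns e * (2 * (FN (TT n a)⁻¹ * n) * (ω v ^ 2 * ‖a v‖ ^ 2) +
      2 * n * ω v ^ 2)) sg :=
    ((h3.const_mul _).add ((int_w ω h1 h2).const_mul _)).const_mul _
  refine hi.mono' ?_ ?_
  · refine Measurable.aestronglyMeasurable ?_
    refine (h1.pow_const 2).mul (Measurable.pow_const ?_ 2)
    exact (Finset.measurable_sum _ fun i _ => (meas_xf hK ha n i).const_mul _).norm
  · filter_upwards [ae_ne hK] with v hv
    rw [Real.norm_eq_abs, abs_of_nonneg (by positivity)]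
    have h4 := ns_dot e (xf n a v)
    have h5 := mul_le_mul_of_nonneg_left (ns_xf_le hK n a v hv) (ns_nonneg e)
    have h6 := mul_le_mul_of_nonneg_left (h4.trans h5) (sq_nonneg (ω v))
    refine h6.trans (le_of_eq ?_)
    ring

/-- SEP -/
theorem sep (hK : S_KER) (hO : ∀ n : ℕ, TT n (fun _ => 1) = 1) (hLA : S_LA) (hL : S_LIP)
    (hT : S_TRC) : S_SEP := by
  intro a s ω hω hGa hGs hPa hPs hF
  obtain ⟨hωm, hω1, hωp, hωi⟩ := hω
  obtain ⟨ham, hai, ha2, hda, εa, hεa, hGa⟩ := hGa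
  obtain ⟨hsm, hsi, hs2, hds, εs, hεs, hGs⟩ := hGs
  obtain ⟨hPB, hlim, w, hw, hw0, hkey⟩ := key hK hO hLA hai hsi hPa hPs hF
  have hprod := int_mul_far hK hai hsi hF
  have hmul : Measurable fun v => a v * s v := ham.mul hsm
  have hsum : Integrable (fun v => ω v ^ 2 * (1 + ‖a v‖ ^ 2 + ‖s v‖ ^ 2)) sg := by
    have : (fun v => ω v ^ 2 * (1 + ‖a v‖ ^ 2 + ‖s v‖ ^ 2)) =
        fun v => (ω v ^ 2 + ω v ^ 2 * ‖a v‖ ^ 2) + ω v ^ 2 * ‖s v‖ ^ 2 := by
      ext v
      ring
    rw [this]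
    exact ((int_w ω hωm hω1).add ha2).add hs2
  have has2 : Integrable (fun v => ω v ^ 2 * ‖a v * s v‖ ^ 2) sg := by
    refine (hsum.const_mul 3).mono' ?_ ?_
    · exact ((hωm.pow_const 2).mul (hmul.norm.pow_const 2)).aestronglyMeasurable
    · filter_upwards [ae_ne hK] with v hv
      rw [Real.norm_eq_abs, abs_of_nonneg (by positivity), far_mul hF v hv]
      have h1 : ‖a v + s v - 1‖ ≤ ‖a v‖ + ‖s v‖ + 1 := by
        refine (norm_sub_le _ _).trans ?_
        rw [norm_one]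
        linarith [norm_add_le (a v) (s v)]
      have h2 : ‖a v + s v - 1‖ ^ 2 ≤ 3 * (1 + ‖a v‖ ^ 2 + ‖s v‖ ^ 2) := by
        have h3 := pow_le_pow_left₀ (norm_nonneg _) h1 2
        nlinarith [sq_nonneg (‖a v‖ - ‖s v‖), sq_nonneg (‖a v‖ - 1), sq_nonneg (‖s v‖ - 1)]
      have := mul_le_mul_of_nonneg_left h2 (sq_nonneg (ω v))
      linarith
  have hdas : ∀ᶠ n : ℕ in atTop, (TT n (fun v => a v * s v)).det ≠ 0 :=
    hkey.mono fun n h => h.2.2.1
  refine ⟨⟨hmul, hprod, has2, hdas, ?_⟩, hPB, hlim, ?_⟩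
  · set I := ∫ v, ω v ^ 2 * (1 + ‖a v‖ ^ 2 + ‖s v‖ ^ 2) ∂sg with hI
    refine ⟨fun n => 3 * (εa n + εs n + w n * I), ?_, ?_⟩
    · have := ((hεa.add hεs).add (hw.tendsto.mul_const I)).const_mul 3
      simpa using this
    · filter_upwards [hkey, hGa, hGs] with n h1 h2 h3 e
      have i1 := (int_xf hK ham hωm hω1 ha2 n e).const_mul 3
      have i2 := (int_xf hK hsm hωm hω1 hs2 n e).const_mul 3
      have i3 := hsum.const_mul (3 * w n * ns e)
      have hle : ∫ v, ω v ^ 2 * ‖∑ i, e i * xf n (fun v => a v * s v) v i‖ ^ 2 ∂sg ≤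
          ∫ v, (3 * (ω v ^ 2 * ‖∑ i, e i * xf n a v i‖ ^ 2) +
            3 * (ω v ^ 2 * ‖∑ i, e i * xf n s v i‖ ^ 2)) +
            3 * w n * ns e * (ω v ^ 2 * (1 + ‖a v‖ ^ 2 + ‖s v‖ ^ 2)) ∂sg := by
        refine integral_mono_ae (int_xf hK hmul hωm hω1 has2 n e) ((i1.add i2).add i3) ?_
        filter_upwards [ae_ne hK] with v hv
        have h4 := h1.2.2.2 v hv
        set D : Fin n → ℂ := xf n (fun v => a v * s v) v - xf n a v - xf n s v with hD
        have h5 : ∑ i, e i * xf n (fun v => a v * s v) v i =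
            ∑ i, e i * xf n a v i + ∑ i, e i * xf n s v i + ∑ i, e i * D i := by
          rw [← Finset.sum_add_distrib, ← Finset.sum_add_distrib]
          refine Finset.sum_congr rfl fun i _ => ?_
          rw [hD]
          simp only [Pi.sub_apply]
          ring
        have h6 : ‖∑ i, e i * D i‖ ^ 2 ≤ ns e * (w n * (1 + ‖a v‖ ^ 2 + ‖s v‖ ^ 2)) :=
          (ns_dot e D).trans (mul_le_mul_of_nonneg_left h4 (ns_nonneg e))
        have h7 : ‖∑ i, e i * xf n (fun v => a v * s v) v i‖ ^ 2 ≤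
            3 * (‖∑ i, e i * xf n a v i‖ ^ 2 + ‖∑ i, e i * xf n s v i‖ ^ 2 +
              ‖∑ i, e i * D i‖ ^ 2) := by
          rw [h5]
          set x := ∑ i, e i * xf n a v i
          set y := ∑ i, e i * xf n s v i
          set z := ∑ i, e i * D i
          have h8 : ‖x + y + z‖ ≤ ‖x‖ + ‖y‖ + ‖z‖ := norm_add₃_le
          have h9 := pow_le_pow_left₀ (norm_nonneg _) h8 2
          nlinarith [sq_nonneg (‖x‖ - ‖y‖), sq_nonneg (‖x‖ - ‖z‖), sq_nonneg (‖y‖ - ‖z‖)]
        have h10 : ‖∑ i, e i * xf n (fun v => a v * s v) v i‖ ^ 2 ≤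
            3 * (‖∑ i, e i * xf n a v i‖ ^ 2 + ‖∑ i, e i * xf n s v i‖ ^ 2 +
              ns e * (w n * (1 + ‖a v‖ ^ 2 + ‖s v‖ ^ 2))) := by linarith
        have h11 := mul_le_mul_of_nonneg_left h10 (sq_nonneg (ω v))
        show ω v ^ 2 * ‖∑ i, e i * xf n (fun v => a v * s v) v i‖ ^ 2 ≤
          (3 * (ω v ^ 2 * ‖∑ i, e i * xf n a v i‖ ^ 2) +
            3 * (ω v ^ 2 * ‖∑ i, e i * xf n s v i‖ ^ 2)) +
            3 * w n * ns e * (ω v ^ 2 * (1 + ‖a v‖ ^ 2 + ‖s v‖ ^ 2))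
        refine h11.trans (le_of_eq ?_)
        ring
      have e1 := integral_add (μ := sg) (f := fun v => 3 * (ω v ^ 2 * ‖∑ i, e i * xf n a v i‖ ^ 2) +
            3 * (ω v ^ 2 * ‖∑ i, e i * xf n s v i‖ ^ 2)) (g := fun v =>
            3 * w n * ns e * (ω v ^ 2 * (1 + ‖a v‖ ^ 2 + ‖s v‖ ^ 2))) (i1.add i2) i3
      have e2 := integral_add i1 i2
      rw [integral_const_mul, integral_const_mul] at e2
      rw [e1, e2, integral_const_mul] at hle
      have h2' := h2 e
      have h3' := h3 e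
      rw [← hI] at hle
      nlinarith
  · intro b hb
    obtain ⟨C, hC⟩ := hL.2.2 b hb
    have hint1 : Integrable (fun v => 1 + ‖a v‖ + ‖s v‖) sg :=
      ((integrable_const 1).add hai.norm).add hsi.norm
    set J := ∫ v, (1 + ‖a v‖ + ‖s v‖) ∂sg with hJ
    have hlim0 : Tendsto (fun n => √(w n * C) * J) atTop (𝓝 0) := by
      have h1 : Tendsto (fun n => w n * C) atTop (𝓝 0) := by
        simpa using hw.tendsto.mul_const C
      have h2 := (Real.continuous_sqrt.tendsto 0).comp h1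
      rw [Real.sqrt_zero] at h2
      simpa using h2.mul_const J
    have intx : ∀ (c : Om → ℂ), Measurable c → Integrable c sg → ∀ n : ℕ,
        (∀ v, nn2 v ≠ 0 → ns (yf n b v) ≤ C) →
        Integrable (fun v => ∑ l, xf n c v l * yf n b v l) sg := by
      intro c hcm hci n hy
      have hi : Integrable (fun v => √((2 * (FN (TT n c)⁻¹ * n) + 2 * n) * C) * (1 + ‖c v‖)) sg :=
        ((integrable_const 1).add hci.norm).const_mul _
      refine hi.mono' ?_ ?_
      · refine Measurable.aestronglyMeasurable ?_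
        exact Finset.measurable_sum _ fun l _ => (meas_xf hK hcm n l).mul (meas_yf hK hb.1 n l)
      · filter_upwards [ae_ne hK] with v hv
        have h1 := ns_dot (xf n c v) (yf n b v)
        have h2 := ns_xf_le hK n c v hv
        have h3 := hy v hv
        have h4 : ns (xf n c v) ≤ (2 * (FN (TT n c)⁻¹ * n) + 2 * n) * (1 + ‖c v‖) ^ 2 := by
          have h5 : 0 ≤ FN (TT n c)⁻¹ * n := mul_nonneg (FN_nonneg _) (Nat.cast_nonneg n)
          have h6 : (0 : ℝ) ≤ n := Nat.cast_nonneg n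
          have h7 := norm_nonneg (c v)
          have h8 : ‖c v‖ ^ 2 ≤ (1 + ‖c v‖) ^ 2 := by nlinarith
          have h9 : 1 ≤ (1 + ‖c v‖) ^ 2 := by nlinarith
          nlinarith [mul_le_mul_of_nonneg_left h8 h5, mul_le_mul_of_nonneg_left h9 h6]
        have hC0 : 0 ≤ C := (ns_nonneg _).trans h3
        have h10 : ns (xf n c v) * ns (yf n b v) ≤
            (2 * (FN (TT n c)⁻¹ * n) + 2 * n) * (1 + ‖c v‖) ^ 2 * C :=
          mul_le_mul h4 h3 (ns_nonneg _) (by
            have := FN_nonneg (TT n c)⁻¹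
            positivity)
        have hnn : 0 ≤ (2 * (FN (TT n c)⁻¹ * n) + 2 * n) * C := by
          have := FN_nonneg (TT n c)⁻¹
          positivity
        refine abs_le_of_sq_le_sq' ?_ (by positivity) |>.2
        rw [mul_pow, Real.sq_sqrt hnn]
        linarith
    rw [tendsto_zero_iff_norm_tendsto_zero]
    refine squeeze_zero' (Eventually.of_forall fun n => norm_nonneg _) ?_ hlim0
    filter_upwards [hkey, hC] with n h1 h2
    have t1 := (hT n _ b hmul hprod hb h1.2.2.1 h2.1).2.2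
    have t2 := (hT n _ b ham hai hb h1.1 h2.1).2.2
    have t3 := (hT n _ b hsm hsi hb h1.2.1 h2.1).2.2
    have j1 := intx _ hmul hprod n h2.2.2
    have j2 := intx _ ham hai n h2.2.2
    have j3 := intx _ hsm hsi n h2.2.2
    have e1 := integral_sub j1 j2
    have e2 := integral_sub (μ := sg) (f := fun v =>
      (∑ l, xf n (fun v => a v * s v) v l * yf n b v l) - ∑ l, xf n a v l * yf n b v l)
      (g := fun v => ∑ l, xf n s v l * yf n b v l) (j1.sub j2) j3
    rw [t1, t2, t3, ← e1, ← e2, hJ, ← integral_const_mul]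
    refine norm_integral_le_of_norm_le (hint1.const_mul _) ?_
    filter_upwards [ae_ne hK] with v hv
    have h4 := h1.2.2.2 v hv
    set D : Fin n → ℂ := xf n (fun v => a v * s v) v - xf n a v - xf n s v with hD
    have h5 : (∑ l, xf n (fun v => a v * s v) v l * yf n b v l) - ∑ l, xf n a v l * yf n b v l -
        ∑ l, xf n s v l * yf n b v l = ∑ l, D l * yf n b v l := by
      rw [← Finset.sum_sub_distrib, ← Finset.sum_sub_distrib]
      refine Finset.sum_congr rfl fun l _ => ?_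
      rw [hD]
      simp only [Pi.sub_apply]
      ring
    rw [h5]
    have h6 := ns_dot D (yf n b v)
    have h7 := h2.2.2 v hv
    have hC0 : 0 ≤ C := (ns_nonneg _).trans h7
    have h8 : 1 + ‖a v‖ ^ 2 + ‖s v‖ ^ 2 ≤ (1 + ‖a v‖ + ‖s v‖) ^ 2 := by
      nlinarith [norm_nonneg (a v), norm_nonneg (s v), mul_nonneg (norm_nonneg (a v)) (norm_nonneg (s v))]
    have h9 : ns D * ns (yf n b v) ≤ (w n * (1 + ‖a v‖ + ‖s v‖) ^ 2) * C :=
      mul_le_mul (h4.trans (mul_le_mul_of_nonneg_left h8 (hw0 n))) h7 (ns_nonneg _)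
        (mul_nonneg (hw0 n) (sq_nonneg _))
    refine abs_le_of_sq_le_sq' ?_ (by positivity) |>.2
    rw [mul_pow, Real.sq_sqrt (mul_nonneg (hw0 n) hC0)]
    linarith

end

end Pool.Agent.P8H61.FM
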